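import Mathlib

/-! A specialisation at which a polynomial vanishes has smaller transcendence degree
(job 3733, helper634). -/

set_option autoImplicit false

open MvPolynomial

namespace Pool.Agent.TH634.T3733

/-- evaluation of a polynomial in one variable over a polynomial ring -/
lemma eval_option {K : Type} [Field K] {t : Type} {A : Type} [CommRing A] [Algebra K A]
    (w : t → A) (γ : A) (R : MvPolynomial (Option t) K) :
    aeval (fun o : Option t => o.elim γ w) R =
      Polynomial.eval₂ (aeval w : MvPolynomial t K →ₐ[K] A).toRingHom γ (optionEquivLeft K t R) := by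
  induction R using MvPolynomial.induction_on with
  | C a =>
    rw [optionEquivLeft_C, Polynomial.eval₂_C]
    simp
  | add p q hp hq => rw [map_add, map_add, Polynomial.eval₂_add, hp, hq]
  | mul_X p o hp =>
    rw [map_mul, map_mul, Polynomial.eval₂_mul, hp, aeval_X]
    congr 1
    cases o with
    | none => rw [optionEquivLeft_X_none, Polynomial.eval₂_X]; rfl
    | some x =>
      rw [optionEquivLeft_X_some, Polynomial.eval₂_C]
      simp

/-- specialisation to a point of a hypersurface decreases the transcendence degree -/
theorem trdeg_spec_lt {K : Type} [Field K] {ι : Type} {F F' : Type} [Field F] [Algebra K F]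
    [Field F'] [Algebra K F'] (z : ι → F) (y : ι → F') (E' : IntermediateField K F')
    (hy : ∀ i, y i ∈ E') (h : ∀ P : MvPolynomial ι K, aeval y P = 0 → aeval z P = 0)
    (G : MvPolynomial ι K) (hG1 : aeval y G ≠ 0) (hG2 : aeval z G = 0) :
    Algebra.trdeg K (IntermediateField.adjoin K (Set.range z)) + 1 ≤ Algebra.trdeg K E' := by
  classical
  set E := IntermediateField.adjoin K (Set.range z) with hE
  let z' : ι → E := fun i => ⟨z i, IntermediateField.subset_adjoin K _ ⟨i, rfl⟩⟩
  have htop : IntermediateField.adjoin K (Set.range z') = ⊤ := by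
    apply IntermediateField.map_injective E.val
    rw [IntermediateField.adjoin_map]
    have h1 : E.val '' Set.range z' = Set.range z := by
      rw [← Set.range_comp]; rfl
    rw [h1]
    have h2 : IntermediateField.map E.val ⊤ = E := by
      rw [← AlgHom.fieldRange_eq_map, IntermediateField.fieldRange_val]
    rw [h2]
  have halg : Algebra.IsAlgebraic (Algebra.adjoin K (Set.range z')) E := by
    rw [← IntermediateField.isAlgebraic_adjoin_iff_top, htop, Algebra.isAlgebraic_iff_isIntegral]
    exact Algebra.isIntegral_of_surjective IntermediateField.topEquiv.surjective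
  obtain ⟨t, hts, ht⟩ := exists_isTranscendenceBasis_subset (R := K) (Set.range z')
  have hpre : ∀ x : t, ∃ i, z' i = x := fun x => hts x.2
  choose g hg using hpre
  rw [← ht.cardinalMk_eq_trdeg, ← Cardinal.mk_option]
  -- the coordinates of the basis are independent
  have hindz : ∀ P : MvPolynomial t K, aeval (z ∘ g) P = 0 → P = 0 := by
    intro P hP
    have h4 : (aeval (z ∘ g) : MvPolynomial t K →ₐ[K] F) =
        E.val.comp (aeval (fun x : t => (x : E))) := by
      apply MvPolynomial.algHom_ext
      intro i
      rw [AlgHom.comp_apply, aeval_X, aeval_X, ← hg i]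
      rfl
    rw [h4, AlgHom.comp_apply, map_eq_zero] at hP
    exact (algebraicIndependent_iff.1 ht.1) P hP
  -- the family
  have hmem : ∀ P : MvPolynomial ι K, aeval y P ∈ E' := by
    intro P
    have h2 : (aeval y : MvPolynomial ι K →ₐ[K] F') =
        E'.val.comp (aeval (fun i => (⟨y i, hy i⟩ : E'))) := by
      apply MvPolynomial.algHom_ext
      intro i
      rw [AlgHom.comp_apply, aeval_X, aeval_X]
      rfl
    rw [h2, AlgHom.comp_apply]
    exact (aeval (fun i => (⟨y i, hy i⟩ : E')) P).2
  let y' : Option t → E' := fun o => o.elim ⟨aeval y G, hmem G⟩ (fun x => ⟨y (g x), hy (g x)⟩)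
  have hind : AlgebraicIndependent K y' := by
    rw [← AlgHom.algebraicIndependent_iff E'.val E'.val.injective, algebraicIndependent_iff]
    intro R hR
    by_contra hR0
    have hfam : (E'.val ∘ y') = fun o : Option t => o.elim (aeval y G) (y ∘ g) := by
      funext o
      cases o with
      | none => rfl
      | some x => rfl
    rw [hfam, eval_option] at hR
    have hR1 : optionEquivLeft K t R ≠ 0 := by
      rw [Ne, map_eq_zero_iff _ (optionEquivLeft K t).injective]
      exact hR0
    obtain ⟨q, hq, hqd⟩ := Polynomial.exists_eq_pow_rootMultiplicity_mul_and_not_dvd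
      (optionEquivLeft K t R) hR1 0
    rw [Polynomial.C_0, sub_zero] at hq hqd
    have hq0 : q.coeff 0 ≠ 0 := fun h0 => hqd (Polynomial.X_dvd_iff.2 h0)
    rw [hq, Polynomial.eval₂_mul, Polynomial.eval₂_pow, Polynomial.eval₂_X] at hR
    have hR2 := (mul_eq_zero.1 hR).resolve_left (pow_ne_zero _ hG1)
    -- the polynomial which vanishes at `y`, hence at `z`
    set S : MvPolynomial ι K :=
      Polynomial.eval₂ (rename g : MvPolynomial t K →ₐ[K] MvPolynomial ι K).toRingHom G q with hS
    have hS1 : aeval y S = 0 := by
      have h1 := Polynomial.hom_eval₂ q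
        (rename g : MvPolynomial t K →ₐ[K] MvPolynomial ι K).toRingHom
        (aeval y : MvPolynomial ι K →ₐ[K] F').toRingHom G
      have h2 : (aeval y : MvPolynomial ι K →ₐ[K] F').toRingHom.comp
          (rename g : MvPolynomial t K →ₐ[K] MvPolynomial ι K).toRingHom =
          (aeval (y ∘ g) : MvPolynomial t K →ₐ[K] F').toRingHom := by
        apply MvPolynomial.ringHom_ext
        · intro r; simp
        · intro i; simp
      rw [h2] at h1
      exact h1.trans hR2
    have hS2 := h S hS1
    have hS3 : aeval z S = aeval (z ∘ g) (q.coeff 0) := by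
      have h1 := Polynomial.hom_eval₂ q
        (rename g : MvPolynomial t K →ₐ[K] MvPolynomial ι K).toRingHom
        (aeval z : MvPolynomial ι K →ₐ[K] F).toRingHom G
      have h2 : (aeval z : MvPolynomial ι K →ₐ[K] F).toRingHom.comp
          (rename g : MvPolynomial t K →ₐ[K] MvPolynomial ι K).toRingHom =
          (aeval (z ∘ g) : MvPolynomial t K →ₐ[K] F).toRingHom := by
        apply MvPolynomial.ringHom_ext
        · intro r; simp
        · intro i; simp
      have h3 : (aeval z : MvPolynomial ι K →ₐ[K] F).toRingHom G = 0 := hG2
      rw [h2, h3, Polynomial.eval₂_at_zero] at h1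
      exact h1
    rw [hS3] at hS2
    exact hq0 (hindz _ hS2)
  exact hind.cardinalMk_le_trdeg

end Pool.Agent.TH634.T3733
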